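import Pool.Agent.H37.CND.Stmts

/-! Row `ART` of board `cnd`: Artin's theorem for a finite group acting on a field. -/

set_option autoImplicit false

namespace Pool.CND

theorem art_thm : S_ART := by
  intro k L G _ _ _ _ _ ρ N g hρ hg
  -- the finite subgroup `ρ(N)` of the automorphism group
  let H : Subgroup (L ≃ₐ[k] L) := N.map ρ
  haveI : Finite H := by
    have : (H : Set (L ≃ₐ[k] L)).Finite := by
      have h1 : ((N : Set G)).Finite := Set.toFinite _
      have h2 : (ρ '' (N : Set G)).Finite := h1.image ρ
      have h3 : (H : Set (L ≃ₐ[k] L)) = ρ '' (N : Set G) := Subgroup.coe_map ρ N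
      rw [h3]; exact h2
    exact this.to_subtype
  -- `ρ g` as an algebra automorphism over the fixed field of `H`
  let e : L ≃ₐ[FixedPoints.subfield H L] L :=
    { (ρ g).toRingEquiv with
      commutes' := fun r => by
        have hr : ∀ n ∈ N, ρ n (r : L) = (r : L) := by
          intro n hn
          have hmem : ρ n ∈ H := Subgroup.mem_map_of_mem ρ hn
          exact r.2 ⟨ρ n, hmem⟩
        exact hg (r : L) hr }
  obtain ⟨h, hh⟩ := FixedPoints.toAlgAut_surjective H L e
  obtain ⟨n, hn, hn2⟩ := h.2
  have heq : ρ n = ρ g := by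
    rw [hn2]
    ext x
    have := DFunLike.congr_fun hh x
    exact this
  have hng : n = g := hρ heq
  rw [← hng]
  exact hn

end Pool.CND
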